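import Pool.Agent.Run7.h303.JP.Base

/-!
# Project JPL: piece JSTP (helper303)
-/

set_option autoImplicit false
set_option linter.all false

open Polynomial IsDedekindDomain
open scoped Classical

namespace Run7.h303.JP

open Pool.Agent.N874.PP (Ov Ev Sq1)
open Pool.Agent.N352.PJ (IsGen Crd Fam GoodR Ht dsc)
open Run7.h875.TS (dg sz sqL irrD prD uT NRs sqf)
open Run7.h550.TS (mem_prD prD_mul dg_prD sqf_fin mem_irrD)
open Run7.h784.TG Run7.h286.PL Run7.h784.JP Run7.h303.PL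

theorem T_JSTP (hS1 : P_JS1) (hREM : P_REM) : P_JSTP := by
  intro k _ _ ι _ g N r f hF hFull K _ _ _ L O _ _ _ _ _ _ _ _ _ _ _ θ hθ nrs hnrs i
  obtain ⟨-, C₀, hC₀⟩ := hS1 k ι g N r f hF hFull K L O θ hθ nrs hnrs
  replace hC₀ := hC₀ i
  refine ⟨2 * C₀, fun φ hφ v V hv M j => ?_⟩
  have hq := q_three (hF.fm i).two
  set q : ℝ := (Nat.card k : ℝ) with hqdef
  have hq0 : (0 : ℝ) < q := by linarith
  have hV : 0 ≤ V := (abs_nonneg _).trans (hv 0)
  have hB : dB g f ≠ 0 := dB_ne hF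
  set ρ : ℝ := del1 (g i) / (del0 (g i) + del1 (g i)) with hρ
  obtain ⟨τ, hτ⟩ : ∃ τ : k[X] → Prop, τ = fun Q => typ O i Q ∧ M < Q.natDegree := ⟨_, rfl⟩
  have hrem := hREM k (dB g f) (hF.fm i).two hB j τ
    (fun D _ => v (bJ O i M D) * avJ O K f θ nrs φ (prD D))
  have hL : ∑ D ∈ sqF (dB g f) j, (bJ O i M D : ℝ) * v (bJ O i M D) *
      avJ O K f θ nrs φ (prD D) =
      ∑ D ∈ sqF (dB g f) j, ∑ Q ∈ (prD D).filter τ,
        v (bJ O i M D) * avJ O K f θ nrs φ (prD D) := by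
    refine Finset.sum_congr rfl fun D _ => ?_
    rw [Finset.sum_const, nsmul_eq_mul]
    have hb : ((prD D).filter τ).card = bJ O i M D := by
      subst hτ
      unfold bJ
      congr
    rw [hb]
    ring
  rw [hL, hrem]
  -- only `m > M` count
  have h1 : ∀ m ∈ Finset.Icc 1 j, ∑ D ∈ sqF (dB g f) (j - m),
      ∑ Q ∈ (irrD k m).filter (fun Q => τ Q ∧ ¬ Q ∣ D ∧ ¬ Q ∣ dB g f),
        v (bJ O i M (D * Q)) * avJ O K f θ nrs φ (prD (D * Q)) =
      if M < m then ∑ D ∈ sqF (dB g f) (j - m), v (bJ O i M D + 1) *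
        ∑ Q ∈ (irrD k m).filter (fun Q => typ O i Q ∧ Q ∉ prD D ∧ ¬ Q ∣ dB g f),
          avJ O K f θ nrs φ (insert Q (prD D)) else 0 := by
    intro m hm
    split_ifs with hMm
    · refine Finset.sum_congr rfl fun D hD => ?_
      rw [mem_sqF] at hD
      rw [Finset.mul_sum]
      have hset : (irrD k m).filter (fun Q => τ Q ∧ ¬ Q ∣ D ∧ ¬ Q ∣ dB g f) =
          (irrD k m).filter (fun Q => typ O i Q ∧ Q ∉ prD D ∧ ¬ Q ∣ dB g f) := by
        ext Q
        rw [Finset.mem_filter, Finset.mem_filter, hτ]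
        refine and_congr_right fun hQ => ?_
        rw [mem_irrD] at hQ
        rw [mem_prD hD.1.ne_zero]
        constructor
        · rintro ⟨⟨a, b⟩, c, d⟩
          exact ⟨a, fun h => c h.2.2, d⟩
        · rintro ⟨a, c, d⟩
          exact ⟨⟨a, by rw [hQ.2.2]; exact hMm⟩, fun h => c ⟨hQ.1, hQ.2.1, h⟩, d⟩
      rw [hset]
      refine Finset.sum_congr rfl fun Q hQ => ?_
      rw [Finset.mem_filter, mem_irrD, mem_prD hD.1.ne_zero] at hQ
      have hnd : ¬ Q ∣ D := fun h => hQ.2.2.1 ⟨hQ.1.1, hQ.1.2.1, h⟩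
      rw [bJ_mul hD.1 hQ.1.1 hQ.1.2.1 hnd hQ.2.1 (by rw [hQ.1.2.2]; exact hMm),
        prD_mul hD.1 hQ.1.1 hQ.1.2.1]
    · refine Finset.sum_eq_zero fun D hD => ?_
      rw [Finset.filter_eq_empty_iff.2, Finset.sum_empty]
      rintro Q hQ ⟨h, -⟩
      rw [hτ] at h
      rw [mem_irrD] at hQ
      have := h.2
      omega
  rw [Finset.sum_congr rfl h1, ← Finset.sum_filter]
  have hset2 : (Finset.Icc 1 j).filter (fun m => M < m) = Finset.Ioc M j := by
    ext m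
    simp only [Finset.mem_filter, Finset.mem_Icc, Finset.mem_Ioc]
    omega
  rw [hset2, ← Finset.sum_sub_distrib]
  -- the error for each `m`
  have h2 : ∀ m ∈ Finset.Ioc M j, |∑ D ∈ sqF (dB g f) (j - m), v (bJ O i M D + 1) *
        ∑ Q ∈ (irrD k m).filter (fun Q => typ O i Q ∧ Q ∉ prD D ∧ ¬ Q ∣ dB g f),
          avJ O K f θ nrs φ (insert Q (prD D)) -
      (dl0 g + dl1 g i) * q ^ m / m * ∑ D ∈ sqF (dB g f) (j - m), v (bJ O i M D + 1) *
        avJ O K f θ nrs (MzJ ρ i φ) (prD D)| ≤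
      V * C₀ * (1 + j) * q ^ j * (√q)⁻¹ ^ m := by
    intro m hm
    rw [Finset.mem_Ioc] at hm
    rw [Finset.mul_sum, ← Finset.sum_sub_distrib]
    have h3 : ∀ D ∈ sqF (dB g f) (j - m), |v (bJ O i M D + 1) *
        ∑ Q ∈ (irrD k m).filter (fun Q => typ O i Q ∧ Q ∉ prD D ∧ ¬ Q ∣ dB g f),
          avJ O K f θ nrs φ (insert Q (prD D)) -
        (dl0 g + dl1 g i) * q ^ m / m * (v (bJ O i M D + 1) *
        avJ O K f θ nrs (MzJ ρ i φ) (prD D))| ≤ V * (C₀ * (1 + j) * √(q ^ m)) := by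
      intro D hD
      have hD' := mem_sqF.1 hD
      have h4 := hC₀ φ hφ (prD D) (by
        intro P hP
        rw [mem_prD hD'.1.ne_zero] at hP
        exact ⟨hP.1, hP.2.1, fun h => hP.2.1.not_isUnit (hD'.2.2.2.isUnit_of_dvd' hP.2.2 h)⟩)
        m (by omega)
      rw [dg_prD hD'.1 hD'.2.2.1, hD'.2.1] at h4
      rw [show v (bJ O i M D + 1) *
        ∑ Q ∈ (irrD k m).filter (fun Q => typ O i Q ∧ Q ∉ prD D ∧ ¬ Q ∣ dB g f),
          avJ O K f θ nrs φ (insert Q (prD D)) -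
        (dl0 g + dl1 g i) * q ^ m / m * (v (bJ O i M D + 1) *
        avJ O K f θ nrs (MzJ ρ i φ) (prD D)) = v (bJ O i M D + 1) *
        (∑ Q ∈ (irrD k m).filter (fun Q => typ O i Q ∧ Q ∉ prD D ∧ ¬ Q ∣ dB g f),
          avJ O K f θ nrs φ (insert Q (prD D)) -
        (dl0 g + dl1 g i) * q ^ m / m * avJ O K f θ nrs (MzJ ρ i φ) (prD D)) by ring, abs_mul]
      refine mul_le_mul (hv _) (h4.trans ?_) (abs_nonneg _) hV
      refine mul_le_mul_of_nonneg_right ?_ (Real.sqrt_nonneg _)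
      refine mul_le_mul_of_nonneg_left ?_ (Nat.cast_nonneg _)
      have : ((j - m : ℕ) : ℝ) ≤ j := by exact_mod_cast Nat.sub_le j m
      linarith
    refine (Finset.abs_sum_le_sum_abs _ _).trans ((Finset.sum_le_sum h3).trans ?_)
    rw [Finset.sum_const, nsmul_eq_mul]
    have h5 := card_sqF (dB g f) (j - m)
    rw [← hqdef] at h5
    have hsq : √(q ^ m) = √q ^ m := Real.sqrt_eq_iff_mul_self_eq (by positivity) (by positivity) |>.2
      (by rw [← mul_pow, Real.mul_self_sqrt hq0.le])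
    have h6 : q ^ (j - m) * √(q ^ m) = q ^ j * (√q)⁻¹ ^ m := by
      rw [hsq]
      have e : q ^ j = q ^ (j - m) * (√q ^ m * √q ^ m) := by
        rw [← mul_pow, Real.mul_self_sqrt hq0.le, ← pow_add]
        congr 1
        omega
      rw [e, inv_pow]
      have : √q ^ m ≠ 0 := by positivity
      field_simp
    calc ((sqF (dB g f) (j - m)).card : ℝ) * (V * (C₀ * (1 + j) * √(q ^ m)))
        ≤ q ^ (j - m) * (V * (C₀ * (1 + j) * √(q ^ m))) :=
          mul_le_mul_of_nonneg_right h5 (by positivity)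
      _ = V * C₀ * (1 + j) * (q ^ (j - m) * √(q ^ m)) := by ring
      _ = V * C₀ * (1 + j) * q ^ j * (√q)⁻¹ ^ m := by rw [h6]; ring
  refine (Finset.abs_sum_le_sum_abs _ _).trans ((Finset.sum_le_sum h2).trans ?_)
  rw [← Finset.mul_sum]
  have h7 := geo_tail q hq M j
  have hsqM : √(q ^ M) = √q ^ M := Real.sqrt_eq_iff_mul_self_eq (by positivity) (by positivity) |>.2
      (by rw [← mul_pow, Real.mul_self_sqrt hq0.le])
  calc V * C₀ * (1 + j) * q ^ j * ∑ m ∈ Finset.Ioc M j, (√q)⁻¹ ^ m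
      ≤ V * C₀ * (1 + j) * q ^ j * (2 * (√q)⁻¹ ^ M) :=
        mul_le_mul_of_nonneg_left h7 (by positivity)
    _ = ((2 * C₀ : ℕ) : ℝ) * V * (1 + j) * q ^ j / √(q ^ M) := by
        rw [hsqM, inv_pow]
        push_cast
        field_simp

end Run7.h303.JP
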