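import Pool.Agent.Run7.h784.JP.Stm
import Pool.Agent.Run7.h303.PL.ITRb
import Pool.Agent.Run7.h303.PL.STP

/-!
# Project JPL: common lemmas for JSTP and JITR (helper303)
-/

set_option autoImplicit false
set_option linter.all false

open Polynomial IsDedekindDomain
open scoped Classical

namespace Run7.h303.JP

open Pool.Agent.N874.PP (Ov Ev Sq1)
open Pool.Agent.N352.PJ (IsGen Crd Fam GoodR Ht dsc)
open Run7.h875.TS (dg sz sqL irrD prD uT NRs sqf)
open Run7.h550.TS (mem_prD prD_mul dg_prD sqf_fin mem_irrD)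
open Run7.h784.TG Run7.h286.PL Run7.h784.JP Run7.h303.PL

section full

variable {k : Type} [Field k] {ι : Type} [Fintype ι]

theorem full_of_jfull {f : ι → k[X][X]} (h : JFull f) (i : ι) : Full (f i) := by
  intro k' _ _ _ _ K' W _ _ _ _ _ _ σ
  obtain ⟨τ, hτ⟩ := h k' K' W
    (fun j => if e : i = j then e ▸ σ else 1)
  refine ⟨τ, fun x => ?_⟩
  have := hτ i x
  simpa using this

theorem dB_ne {g N : ι → ℕ} {r : ι → k[X]} {f : ι → k[X][X]} (hF : JF g N r f) :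
    dB g f ≠ 0 := by
  unfold dB
  exact Finset.prod_ne_zero_iff.2 fun i _ => (hF.fm i).fam.sq.ne_zero

theorem dsc_dvd (g : ι → ℕ) (f : ι → k[X][X]) (i : ι) : dsc (g i) (f i) ∣ dB g f :=
  Finset.dvd_prod_of_mem _ (Finset.mem_univ i)

end full

section av

variable {k : Type} [Field k] [Finite k] {ι : Type} [Fintype ι] {K : Type} [Field K]
  [Algebra k[X] K] [IsFractionRing k[X] K] {L O : ι → Type}
  [∀ i, Field (L i)] [∀ i, Algebra K (L i)] [∀ i, Algebra k[X] (L i)]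
  [∀ i, IsScalarTower k[X] K (L i)] [∀ i, CommRing (O i)] [∀ i, IsDedekindDomain (O i)]
  [∀ i, Algebra (O i) (L i)] [∀ i, IsFractionRing (O i) (L i)] [∀ i, Algebra k[X] (O i)]
  [∀ i, IsScalarTower k[X] (O i) (L i)] [∀ i, IsIntegralClosure (O i) k[X] (L i)]

theorem avJ_abs_le (f : ι → k[X][X]) (θ : ∀ i, L i) (nrs : k[X] → k[X])
    {φ ψ : (ι → ℕ) → ℝ} (h : ∀ d, |φ d| ≤ ψ d) (S : Finset k[X]) :
    |avJ O K f θ nrs φ S| ≤ avJ O K f θ nrs ψ S := by
  unfold avJ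
  rw [abs_mul, abs_of_nonneg (by positivity)]
  refine mul_le_mul_of_nonneg_left ?_ (by positivity)
  exact (Finset.abs_sum_le_sum_abs _ _).trans (Finset.sum_le_sum fun T _ => h _)

theorem avJ_const (f : ι → k[X][X]) (θ : ∀ i, L i) (nrs : k[X] → k[X]) (c : ℝ)
    (S : Finset k[X]) : avJ O K f θ nrs (fun _ => c) S = c := by
  unfold avJ
  rw [Finset.sum_const, Finset.card_powerset, nsmul_eq_mul]
  push_cast
  rw [← mul_assoc, ← mul_pow]
  norm_num

theorem avJ_sub (f : ι → k[X][X]) (θ : ∀ i, L i) (nrs : k[X] → k[X])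
    (φ ψ : (ι → ℕ) → ℝ) (S : Finset k[X]) :
    avJ O K f θ nrs (fun d => φ d - ψ d) S = avJ O K f θ nrs φ S - avJ O K f θ nrs ψ S := by
  unfold avJ
  rw [Finset.sum_sub_distrib, mul_sub]

theorem avJ_smul (f : ι → k[X][X]) (θ : ∀ i, L i) (nrs : k[X] → k[X]) (c : ℝ)
    (φ : (ι → ℕ) → ℝ) (S : Finset k[X]) :
    avJ O K f θ nrs (fun d => c * φ d) S = c * avJ O K f θ nrs φ S := by
  unfold avJ
  rw [← Finset.mul_sum]
  ring

theorem avJ_abs_one (f : ι → k[X][X]) (θ : ∀ i, L i) (nrs : k[X] → k[X])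
    {φ : (ι → ℕ) → ℝ} (h : ∀ d, |φ d| ≤ 1) (S : Finset k[X]) :
    |avJ O K f θ nrs φ S| ≤ 1 := by
  have := avJ_abs_le (O := O) (K := K) f θ nrs h S
  rwa [avJ_const] at this

theorem avJ_proj (f : ι → k[X][X]) (θ : ∀ i, L i) (nrs : k[X] → k[X]) (i : ι) (φ : ℕ → ℝ)
    (S : Finset k[X]) :
    avJ O K f θ nrs (fun d => φ (d i)) S = av (O i) K (f i) (θ i) nrs φ S := rfl

theorem bJ_mul {i : ι} {M : ℕ} {D Q : k[X]} (hD : D.Monic) (hQ : Q.Monic) (hQ' : Irreducible Q)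
    (hd : ¬ Q ∣ D) (h1 : typ O i Q) (h2 : M < Q.natDegree) :
    bJ O i M (D * Q) = bJ O i M D + 1 := by
  unfold bJ
  rw [prD_mul hD hQ hQ', Finset.filter_insert, if_pos ⟨h1, h2⟩, Finset.card_insert_of_notMem]
  intro h
  exact hd ((mem_prD hD.ne_zero).1 (Finset.mem_filter.1 h).1).2.2

end av

theorem dl0_pos {ι : Type} [Fintype ι] (g : ι → ℕ) : 0 < dl0 g :=
  Finset.prod_pos fun i _ => del0_pos (g i)

theorem dl1_pos {ι : Type} [Fintype ι] (g : ι → ℕ) (i : ι) (h : 1 ≤ g i) : 0 < dl1 g i :=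
  mul_pos (del1_pos h) (Finset.prod_pos fun j _ => del0_pos (g j))

end Run7.h303.JP
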