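import Pool.Agent.Run7.h303.JP.Base

/-!
# Project JPL: piece JITR (helper303)
-/

set_option autoImplicit false
set_option linter.all false

open Polynomial IsDedekindDomain Filter
open scoped Classical

namespace Run7.h303.JP

open Pool.Agent.N874.PP (Ov Ev Sq1)
open Pool.Agent.N352.PJ (IsGen Crd Fam GoodR Ht dsc)
open Run7.h875.TS (dg sz sqL irrD prD uT NRs sqf)
open Run7.h550.TS (mem_prD prD_mul dg_prD sqf_fin mem_irrD)
open Run7.h784.TG Run7.h286.PL Run7.h784.JP Run7.h303.PL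

section chain

variable {ι : Type} [Fintype ι]

theorem lwJ_update (i : ι) (φ : (ι → ℕ) → ℝ) (d : ι → ℕ) (x : ℕ) :
    LwJ i φ (Function.update d i x) = LwJ i φ d := by
  unfold LwJ
  congr 1
  funext y
  rw [Function.update_idem]

theorem mzJ_update (ρ : ℝ) (i : ι) (φ : (ι → ℕ) → ℝ) (d : ι → ℕ) (x : ℕ) :
    MzJ ρ i φ (Function.update d i x) = Mz ρ (fun y => φ (Function.update d i y)) x := by
  unfold MzJ
  rw [Function.update_self]
  congr 1
  funext y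
  rw [Function.update_idem]

theorem mzJ_iter_update (ρ : ℝ) (i : ι) (φ : (ι → ℕ) → ℝ) (R : ℕ) (d : ι → ℕ) (x : ℕ) :
    (MzJ ρ i)^[R] φ (Function.update d i x) =
      (Mz ρ)^[R] (fun y => φ (Function.update d i y)) x := by
  induction R generalizing x with
  | zero => rfl
  | succ R ih =>
    rw [Function.iterate_succ_apply', Function.iterate_succ_apply', mzJ_update]
    congr 1
    funext y
    exact ih y

theorem mzJ_iter (ρ : ℝ) (i : ι) (φ : (ι → ℕ) → ℝ) (R : ℕ) (d : ι → ℕ) :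
    (MzJ ρ i)^[R] φ d = (Mz ρ)^[R] (fun y => φ (Function.update d i y)) (d i) := by
  have := mzJ_iter_update ρ i φ R d (d i)
  rwa [Function.update_eq_self] at this

theorem mzJ_smul_sub (ρ : ℝ) (i : ι) (φ ψ : (ι → ℕ) → ℝ) :
    MzJ ρ i (fun d => (ψ d - LwJ i φ d) / 2) = fun d => (MzJ ρ i ψ d - LwJ i φ d) / 2 := by
  funext d
  have h := congrFun (Mz_smul_sub ρ (LwJ i φ d) (fun y => ψ (Function.update d i y))) (d i)
  unfold MzJ
  simp only [lwJ_update]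
  exact h

end chain

section main

variable {k : Type} [Field k] [Finite k] {ι : Type} [Fintype ι] {K : Type} [Field K]
  [Algebra k[X] K] [IsFractionRing k[X] K] {L O : ι → Type}
  [∀ i, Field (L i)] [∀ i, Algebra K (L i)] [∀ i, Algebra k[X] (L i)]
  [∀ i, IsScalarTower k[X] K (L i)] [∀ i, CommRing (O i)] [∀ i, IsDedekindDomain (O i)]
  [∀ i, Algebra (O i) (L i)] [∀ i, IsFractionRing (O i) (L i)] [∀ i, Algebra k[X] (O i)]
  [∀ i, IsScalarTower k[X] (O i) (L i)] [∀ i, IsIntegralClosure (O i) k[X] (L i)]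
  {g N : ι → ℕ} {r : ι → k[X]} {f : ι → k[X][X]} {θ : ∀ i, L i}

/-- The first moment. -/
theorem momJ_le (hF : JF g N r f) (i : ι) (nrs : k[X] → k[X]) {B : ℝ}
    (hB : ∀ N' : ℕ, ∑ᶠ D ∈ sqf (dsc (g i) (f i)) N', (1 / 2 : ℝ) ^ (prD D).card *
      ∑ T ∈ (prD D).powerset, (sz (SelG (O i) K (f i) (θ i) (prD D) (uT nrs T)) : ℝ) ≤
        B * (Nat.card k : ℝ) ^ N') (j : ℕ) :
    ∑ D ∈ sqF (dB g f) j, avJ O K f θ nrs (fun d => (2 : ℝ) ^ (d i)) (prD D) ≤
      (1 + |B|) * (Nat.card k : ℝ) ^ j := by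
  refine le_trans ?_ (mom_le (θ := θ i) (K := K) (O := O i) (hF.fm i) nrs hB j)
  refine Finset.sum_le_sum_of_subset_of_nonneg ?_ ?_
  · intro D hD
    rw [mem_sqF] at hD ⊢
    exact ⟨hD.1, hD.2.1, hD.2.2.1, hD.2.2.2.of_isCoprime_of_dvd_right (dsc_dvd g f i)⟩
  · intro D _ _
    unfold avJ
    positivity

theorem itrJ_main (hF : JF g N r f) (w : ι)
    (nrs : k[X] → k[X]) {C₀ : ℕ}
    (hC₀ : ∀ φ : (ι → ℕ) → ℝ, (∀ d, |φ d| ≤ 1) → ∀ (v : ℕ → ℝ) (V : ℝ), (∀ b, |v b| ≤ V) → ∀ M j : ℕ,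
    |∑ D ∈ sqF (dB g f) j, (bJ O w M D : ℝ) * v (bJ O w M D) * avJ O K f θ nrs φ (prD D) -
      ∑ m ∈ Finset.Ioc M j, (dl0 g + dl1 g w) * (Nat.card k : ℝ) ^ m / m *
        ∑ D ∈ sqF (dB g f) (j - m), v (bJ O w M D + 1) *
          avJ O K f θ nrs (MzJ (del1 (g w) / (del0 (g w) + del1 (g w))) w φ) (prD D)| ≤
      C₀ * V * (1 + j) * (Nat.card k : ℝ) ^ j / √((Nat.card k : ℝ) ^ M))
    {B : ℝ}
    (hB : ∀ N' : ℕ, ∑ᶠ D ∈ sqf (dsc (g w) (f w)) N', (1 / 2 : ℝ) ^ (prD D).card *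
      ∑ T ∈ (prD D).powerset, (sz (SelG (O w) K (f w) (θ w) (prD D) (uT nrs T)) : ℝ) ≤
        B * (Nat.card k : ℝ) ^ N')
    {C κ : ℝ} (hC : 0 < C) (hκ : 0 < κ) (hκ1 : κ < 1)
    (hmc : ∀ φ : ℕ → ℝ, (∀ d, |φ d| ≤ 1) → ∀ R x : ℕ,
      |(Mz (del1 (g w) / (del0 (g w) + del1 (g w))))^[R] φ x| ≤ 1 ∧
        |(Mz (del1 (g w) / (del0 (g w) + del1 (g w))))^[R] φ x - Lw φ| ≤ C * κ ^ R * 2 ^ x)
    {C₁ : ℝ} (hC₁ : ∀ x : ℝ, 0 ≤ x → x ≤ 1 → ∀ M N : ℕ, 1 ≤ M → M ≤ N →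
      ∑ D ∈ sqF (dB g f) N, x ^ (bJ O w M D) ≤
        C₁ * (Nat.card k : ℝ) ^ N * ((M : ℝ) / N) ^ ((1 - x) * (dl0 g + dl1 g w)))
    {φ : (ι → ℕ) → ℝ} (hφ : ∀ d, |φ d| ≤ 1) (hℓ : ∀ d, |LwJ w φ d| ≤ 1) {t : ℝ} (ht : κ < t) (ht1 : t < 1)
    (R n : ℕ) (hn : 2 ≤ Nat.sqrt n) :
    |∑ D ∈ sqF (dB g f) n, (avJ O K f θ nrs φ (prD D) - avJ O K f θ nrs (LwJ w φ) (prD D))| ≤
      2 * (Nat.card k : ℝ) ^ n * (C / 2 * (1 + |B|) * (κ / t) ^ R +
        C₀ * (1 + n) / √((Nat.card k : ℝ) ^ (Nat.sqrt n)) *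
          (R * (1 + lamN (dl0 g + dl1 g w) n) ^ R) +
        |C₁| * (t⁻¹) ^ (R + ⌈t * lamN (dl0 g + dl1 g w) n⌉₊) *
          (((Nat.sqrt n : ℕ) : ℝ) / n) ^ ((1 - t) * (dl0 g + dl1 g w))) := by
  have hq := q_three (hF.fm w).two
  set q : ℝ := (Nat.card k : ℝ) with hqdef
  have hq0 : (0 : ℝ) < q := by linarith
  have hd0 := dl0_pos g
  have hd1 := dl1_pos g w (hF.fm w).g1
  set δ : ℝ := dl0 g + dl1 g w with hδ
  have hδp : 0 < δ := by positivity
  set ρ : ℝ := del1 (g w) / (del0 (g w) + del1 (g w)) with hρ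
  set M := Nat.sqrt n with hM
  set lam := lamN δ n with hlam
  have ht0 : 0 < t := hκ.trans ht
  have hM1 : 1 ≤ M := by omega
  have hMn : M ≤ n := Nat.sqrt_le_self n
  have hlam0 : 0 < lam := by
    refine lt_of_lt_of_le ?_ (lamN_ge hδp.le hM1)
    refine mul_pos hδp (Real.log_pos ?_)
    have : (2 : ℝ) ≤ (Nat.sqrt n : ℕ) := by exact_mod_cast hn
    linarith
  set c := ⌈t * lam⌉₊ with hc
  have hc1 : 0 < c := Nat.ceil_pos.2 (by positivity)
  set B₁ := R + c with hB₁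
  -- the functions
  set χ : ℕ → (ι → ℕ) → ℝ := fun i d => ((MzJ ρ w)^[i] φ d - LwJ w φ d) / 2 with hχ
  have hχ1 : ∀ i d, |χ i d| ≤ 1 := by
    intro i d
    have h1 := (hmc (fun y => φ (Function.update d w y)) (fun _ => hφ _) i (d w)).1
    rw [← mzJ_iter] at h1
    have h2 := hℓ d
    rw [hχ]
    simp only
    rw [abs_div, abs_of_pos (show (0 : ℝ) < 2 by norm_num), div_le_one (by norm_num)]
    refine (abs_sub _ _).trans ?_
    linarith
  have hχs : ∀ i, MzJ ρ w (χ i) = χ (i + 1) := by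
    intro i
    rw [hχ]
    simp only
    rw [mzJ_smul_sub]
    funext d
    rw [Function.iterate_succ_apply']
  have hχR : ∀ d, |χ R d| ≤ (C / 2 * κ ^ R) * 2 ^ (d w) := by
    intro d
    have h1 := (hmc (fun y => φ (Function.update d w y)) (fun _ => hφ _) R (d w)).2
    rw [← mzJ_iter] at h1
    have h2 : Lw (fun y => φ (Function.update d w y)) = LwJ w φ d := rfl
    rw [h2] at h1
    rw [hχ]
    simp only
    rw [abs_div, abs_of_pos (show (0 : ℝ) < 2 by norm_num)]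
    linarith
  -- the array
  set d : ℕ → ℕ → ℝ := fun i j => (∑ D ∈ sqF (dB g f) j, wD B₁ i (bJ O w M D) *
    avJ O K f θ nrs (χ i) (prD D)) / q ^ j with hd
  have h1 : ∀ i < R, ∀ j ≤ n, |d i j - ∑ m ∈ Finset.Ioc M j, δ / m * d (i + 1) (j - m)| ≤
      C₀ * (1 + n) / √(q ^ M) := by
    intro i hi j hj
    have h2 := hC₀ (χ i) (hχ1 i) (vD B₁ i) 1 (vD_le B₁ i) M j
    rw [hχs i] at h2
    have h3 : ∀ D : k[X], (bJ O w M D : ℝ) * vD B₁ i (bJ O w M D) = wD B₁ i (bJ O w M D) :=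
      fun D => (wD_eq (by omega) _).symm
    simp only [h3, vD_succ] at h2
    have h4 : d i j - ∑ m ∈ Finset.Ioc M j, δ / m * d (i + 1) (j - m) =
        (∑ D ∈ sqF (dB g f) j, wD B₁ i (bJ O w M D) * avJ O K f θ nrs (χ i) (prD D) -
        ∑ m ∈ Finset.Ioc M j, δ * q ^ m / m * ∑ D ∈ sqF (dB g f) (j - m),
          wD B₁ (i + 1) (bJ O w M D) * avJ O K f θ nrs (χ (i + 1)) (prD D)) / q ^ j := by
      rw [sub_div, hd]
      simp only
      congr 1
      rw [Finset.sum_div]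
      refine Finset.sum_congr rfl fun m hm => ?_
      rw [Finset.mem_Ioc] at hm
      have e : q ^ j = q ^ (j - m) * q ^ m := by
        rw [← pow_add]
        congr 1
        omega
      rw [e]
      have hm0 : (m : ℝ) ≠ 0 := by
        have : m ≠ 0 := by omega
        exact_mod_cast this
      field_simp
    rw [h4, abs_div, abs_of_pos (by positivity : (0 : ℝ) < q ^ j), div_le_iff₀ (by positivity)]
    refine h2.trans ?_
    have h5 : (j : ℝ) ≤ n := by exact_mod_cast hj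
    have h6 : (C₀ : ℝ) * 1 * (1 + j) * q ^ j / √(q ^ M) =
        (C₀ : ℝ) * (1 + j) / √(q ^ M) * q ^ j := by ring
    rw [h6]
    gcongr
  have h2 : ∀ j ≤ n, |d R j| ≤ 1 / (c : ℝ) ^ R * ((C / 2 * κ ^ R) * (1 + |B|)) := by
    intro j _
    rw [hd]
    simp only
    rw [abs_div, abs_of_pos (by positivity : (0 : ℝ) < q ^ j), div_le_iff₀ (by positivity)]
    have hcR : B₁ - R = c := by omega
    have h3 : ∀ D ∈ sqF (dB g f) j, |wD B₁ R (bJ O w M D) * avJ O K f θ nrs (χ R) (prD D)| ≤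
        1 / (c : ℝ) ^ R * ((C / 2 * κ ^ R) * avJ O K f θ nrs (fun d => (2 : ℝ) ^ (d w)) (prD D)) := by
      intro D _
      rw [abs_mul, abs_of_nonneg (wD_nonneg _ _ _)]
      have h4 := wD_le (show R < B₁ by omega) (bJ O w M D)
      rw [hcR] at h4
      refine mul_le_mul h4 ?_ (abs_nonneg _) (by positivity)
      have h5 := avJ_abs_le (O := O) (K := K) f θ nrs hχR (prD D)
      rwa [avJ_smul] at h5
    refine (Finset.abs_sum_le_sum_abs _ _).trans ((Finset.sum_le_sum h3).trans ?_)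
    rw [← Finset.mul_sum, ← Finset.mul_sum]
    have h6 := momJ_le (θ := θ) (K := K) (O := O) hF w nrs hB j
    rw [← hqdef] at h6
    calc 1 / (c : ℝ) ^ R * ((C / 2 * κ ^ R) *
          ∑ D ∈ sqF (dB g f) j, avJ O K f θ nrs (fun d => (2 : ℝ) ^ (d w)) (prD D))
        ≤ 1 / (c : ℝ) ^ R * ((C / 2 * κ ^ R) * ((1 + |B|) * q ^ j)) := by gcongr
      _ = _ := by ring
  have hE : 0 ≤ C₀ * (1 + (n : ℝ)) / √(q ^ M) := by positivity
  have h3 := iter_bound n R M δ lam _ _ hδp.le hlam0.le hE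
    (by positivity : 0 ≤ 1 / (c : ℝ) ^ R * ((C / 2 * κ ^ R) * (1 + |B|)))
    (harm_le δ hδp.le hM1 hMn) d h1 h2 R le_rfl n le_rfl
  rw [Nat.sub_self] at h3
  have hc0 : (0 : ℝ) < c := by exact_mod_cast hc1
  have h4 : lam ^ R * (1 / (c : ℝ) ^ R * ((C / 2 * κ ^ R) * (1 + |B|))) ≤
      C / 2 * (1 + |B|) * (κ / t) ^ R := by
    have h5 : lam / c ≤ 1 / t := by
      rw [div_le_div_iff₀ hc0 ht0, one_mul, mul_comm]
      exact Nat.le_ceil _
    have h6 : (lam / c) ^ R ≤ (1 / t) ^ R := pow_le_pow_left₀ (by positivity) h5 R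
    calc lam ^ R * (1 / (c : ℝ) ^ R * ((C / 2 * κ ^ R) * (1 + |B|)))
        = (C / 2 * (1 + |B|) * κ ^ R) * (lam / c) ^ R := by
          rw [div_pow]
          ring
      _ ≤ (C / 2 * (1 + |B|) * κ ^ R) * (1 / t) ^ R := by gcongr
      _ = _ := by
          rw [div_pow, div_pow, one_pow]
          ring
  have h5 : |d 0 n| ≤ C / 2 * (1 + |B|) * (κ / t) ^ R +
      C₀ * (1 + n) / √(q ^ M) * (R * (1 + lam) ^ R) := by
    refine h3.trans (add_le_add h4 ?_)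
    exact mul_le_mul_of_nonneg_left (geo_le R lam hlam0.le) hE
  -- the small number of large primes
  have h6 : |∑ D ∈ sqF (dB g f) n, (1 - wD B₁ 0 (bJ O w M D)) *
      avJ O K f θ nrs (χ 0) (prD D)| ≤
      q ^ n * (|C₁| * (t⁻¹) ^ B₁ * ((M : ℝ) / n) ^ ((1 - t) * δ)) := by
    have h7 : ∀ D ∈ sqF (dB g f) n, |(1 - wD B₁ 0 (bJ O w M D)) *
        avJ O K f θ nrs (χ 0) (prD D)| ≤ (t⁻¹) ^ B₁ * t ^ (bJ O w M D) := by
      intro D _
      rw [abs_mul]
      have h8 := avJ_abs_one (O := O) (K := K) f θ nrs (hχ1 0) (prD D)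
      have h9 : |1 - wD B₁ 0 (bJ O w M D)| ≤ (t⁻¹) ^ B₁ * t ^ (bJ O w M D) := by
        unfold wD
        split_ifs with hb
        · simp only [Nat.descFactorial_zero, Nat.cast_one, div_one, sub_self, abs_zero]
          positivity
        · rw [sub_zero, abs_one, inv_pow, ← div_eq_inv_mul, le_div_iff₀ (by positivity), one_mul]
          exact pow_le_pow_of_le_one ht0.le ht1.le (by omega)
      calc |1 - wD B₁ 0 (bJ O w M D)| * |avJ O K f θ nrs (χ 0) (prD D)|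
          ≤ (t⁻¹) ^ B₁ * t ^ (bJ O w M D) * 1 :=
            mul_le_mul h9 h8 (abs_nonneg _) (by positivity)
        _ = _ := mul_one _
    refine (Finset.abs_sum_le_sum_abs _ _).trans ((Finset.sum_le_sum h7).trans ?_)
    rw [← Finset.mul_sum]
    have h8 := hC₁ t ht0.le ht1.le M n hM1 hMn
    have h9 : (0 : ℝ) ≤ ((M : ℝ) / n) ^ ((1 - t) * δ) := by positivity
    calc (t⁻¹) ^ B₁ * ∑ D ∈ sqF (dB g f) n, t ^ (bJ O w M D)
        ≤ (t⁻¹) ^ B₁ * (C₁ * q ^ n * ((M : ℝ) / n) ^ ((1 - t) * δ)) :=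
          mul_le_mul_of_nonneg_left h8 (by positivity)
      _ ≤ (t⁻¹) ^ B₁ * (|C₁| * q ^ n * ((M : ℝ) / n) ^ ((1 - t) * δ)) := by
          refine mul_le_mul_of_nonneg_left ?_ (by positivity)
          refine mul_le_mul_of_nonneg_right ?_ h9
          exact mul_le_mul_of_nonneg_right (le_abs_self _) (by positivity)
      _ = _ := by ring
  -- conclusion
  have h7 : ∑ D ∈ sqF (dB g f) n, (avJ O K f θ nrs φ (prD D) - avJ O K f θ nrs (LwJ w φ) (prD D)) =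
      2 * (q ^ n * d 0 n + ∑ D ∈ sqF (dB g f) n, (1 - wD B₁ 0 (bJ O w M D)) *
        avJ O K f θ nrs (χ 0) (prD D)) := by
    have h8 : q ^ n * d 0 n = ∑ D ∈ sqF (dB g f) n, wD B₁ 0 (bJ O w M D) *
        avJ O K f θ nrs (χ 0) (prD D) := by
      rw [hd]
      simp only
      rw [mul_div_cancel₀]
      positivity
    rw [h8, ← Finset.sum_add_distrib, Finset.mul_sum]
    refine Finset.sum_congr rfl fun D _ => ?_
    have h9 : avJ O K f θ nrs (χ 0) (prD D) =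
        (avJ O K f θ nrs φ (prD D) - avJ O K f θ nrs (LwJ w φ) (prD D)) / 2 := by
      have e1 : χ 0 = fun d => (1 / 2 : ℝ) * (φ d - LwJ w φ d) := by
        rw [hχ]
        funext d
        simp only [Function.iterate_zero, id_eq]
        ring
      rw [e1, avJ_smul, avJ_sub]
      ring
    rw [h9]
    ring
  rw [h7, abs_mul, abs_of_pos (show (0 : ℝ) < 2 by norm_num), mul_assoc 2]
  refine mul_le_mul_of_nonneg_left ?_ (by norm_num)
  refine (abs_add_le _ _).trans ?_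
  rw [abs_mul, abs_of_pos (by positivity : (0 : ℝ) < q ^ n)]
  have h8 := mul_le_mul_of_nonneg_left h5 (by positivity : (0 : ℝ) ≤ q ^ n)
  calc q ^ n * |d 0 n| + |∑ D ∈ sqF (dB g f) n, (1 - wD B₁ 0 (bJ O w M D)) *
        avJ O K f θ nrs (χ 0) (prD D)|
      ≤ q ^ n * (C / 2 * (1 + |B|) * (κ / t) ^ R +
      C₀ * (1 + n) / √(q ^ M) * (R * (1 + lam) ^ R)) +
        q ^ n * (|C₁| * (t⁻¹) ^ B₁ * ((M : ℝ) / n) ^ ((1 - t) * δ)) := add_le_add h8 h6
    _ = _ := by ring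

end main

theorem T_JITR (hSTP : P_JSTP) (hMC : P_MC) (hAVG : P_AVG) (hRAN : P_RAN) (hK : P_JKILL2)
    (hLa : P_JLAST2) : P_JITR := by
  intro k _ _ ι _ g N r f hF hFull K _ _ _ L O _ _ _ _ _ _ _ _ _ _ _ θ hθ nrs hnrs w φ hφ ε hε
  obtain ⟨C₀, hC₀⟩ := hSTP k ι g N r f hF hFull K L O θ hθ nrs hnrs w
  obtain ⟨B, hB⟩ := hAVG k K (L w) (O w) (g w) (N w) (r w) (f w) (θ w) (hF.fm w)
    (full_of_jfull hFull w) (hθ w) nrs hnrs
  have hd0 := dl0_pos g
  have hd1 := dl1_pos g w (hF.fm w).g1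
  have hd0' := del0_pos (g w)
  have hd1' := del1_pos (hF.fm w).g1
  have hδp : 0 < dl0 g + dl1 g w := by positivity
  have hq := q_three (hF.fm w).two
  obtain ⟨C, κ, hC, hκ, hκ1, hmc⟩ := hMC (del1 (g w) / (del0 (g w) + del1 (g w))) (by positivity)
    (by rw [div_lt_one (by positivity)]; linarith)
  -- the number of the primes
  obtain ⟨C₁, hC₁⟩ : ∃ C₁ : ℝ, ∀ x : ℝ, 0 ≤ x → x ≤ 1 → ∀ M N : ℕ, 1 ≤ M → M ≤ N →
      ∑ D ∈ sqF (dB g f) N, x ^ (bJ O w M D) ≤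
        C₁ * (Nat.card k : ℝ) ^ N * ((M : ℝ) / N) ^ ((1 - x) * (dl0 g + dl1 g w)) := by
    obtain ⟨C₂, hC₂⟩ := hK k ι g N r f hF hFull
    obtain ⟨C₃, hC₃⟩ := hLa k ι g N r f hF hFull
    have h1 := (hC₂ K L O θ hθ w).1
    have h2 := hC₃ K L O θ hθ ∅ (fun _ => True) (by simp)
    obtain ⟨τ, hτ⟩ : ∃ τ : k[X] → Prop, τ = fun Q => typ O w Q := ⟨_, rfl⟩
    obtain ⟨C₁, hC₁⟩ := hRAN k (dB g f) (hF.fm w).two (dB_ne hF) τ (dl0 g + dl1 g w) (C₂ + C₃)
      hδp.le (by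
        intro m hm
        have h3 := (abs_le.1 (h1 m hm)).1
        have h4 := (abs_le.1 (h2 m hm)).1
        have h5 : ((irrD k m).filter fun Q => ¬ Q ∣ dB g f ∧ nr (O w) Q = 2 ∧
              ∀ j, j ≠ w → nr (O j) Q = 1).card +
            ((irrD k m).filter fun Q => ¬ Q ∣ dB g f ∧ (∀ j, nr (O j) Q = 1) ∧
              Q ∉ (∅ : Finset k[X]) ∧
              ∀ P ∈ (∅ : Finset k[X]), (∃ z : k[X], P ∣ z ^ 2 - Q) ↔ True).card ≤
            ((irrD k m).filter τ).card := by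
          rw [← Finset.card_union_of_disjoint]
          · refine Finset.card_le_card fun Q hQ => ?_
            rw [Finset.mem_union, Finset.mem_filter, Finset.mem_filter] at hQ
            rw [Finset.mem_filter, hτ]
            rcases hQ with hQ | hQ
            · exact ⟨hQ.1, hQ.2.2.1.le, hQ.2.2.2⟩
            · exact ⟨hQ.1, (hQ.2.2.1 w).le.trans (by norm_num), fun j _ => hQ.2.2.1 j⟩
          · rw [Finset.disjoint_left]
            intro Q hQ hQ'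
            rw [Finset.mem_filter] at hQ hQ'
            have e1 := hQ.2.2.1
            have e2 := hQ'.2.2.1 w
            omega
        have h6 : ((((irrD k m).filter fun Q => ¬ Q ∣ dB g f ∧ nr (O w) Q = 2 ∧
              ∀ j, j ≠ w → nr (O j) Q = 1).card : ℕ) : ℝ) +
            ((((irrD k m).filter fun Q => ¬ Q ∣ dB g f ∧ (∀ j, nr (O j) Q = 1) ∧
              Q ∉ (∅ : Finset k[X]) ∧
              ∀ P ∈ (∅ : Finset k[X]), (∃ z : k[X], P ∣ z ^ 2 - Q) ↔ True).card : ℕ) : ℝ) ≤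
            ((((irrD k m).filter τ).card : ℕ) : ℝ) := by exact_mod_cast h5
        simp only [Run7.h875.TS.dg, Finset.sum_empty, Nat.cast_zero, add_zero, mul_one,
          Finset.card_empty, pow_zero] at h4
        have h7 : (dl0 g + dl1 g w) * (Nat.card k : ℝ) ^ m / m =
          dl0 g * (Nat.card k : ℝ) ^ m / m + dl1 g w * (Nat.card k : ℝ) ^ m / m := by ring
        rw [h7]
        simp only [Finset.notMem_empty, not_false_eq_true, false_implies, implies_true,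
          and_true, iff_true, true_and, IsEmpty.forall_iff] at h4 h6 ⊢
        linarith)
    refine ⟨C₁, fun x hx hx1 M N hM hN => le_trans (le_of_eq ?_) (hC₁ x hx hx1 M N hM hN)⟩
    refine Finset.sum_congr rfl fun D _ => ?_
    congr 1
    unfold bJ
    subst hτ
    congr
  set t := (1 + κ) / 2 with ht
  have ht1 : t < 1 := by rw [ht]; linarith
  have hκt : κ < t := by rw [ht]; linarith
  have ht0 : 0 < t := by linarith
  -- choice of `R`
  have h1 : Tendsto (fun R : ℕ => C / 2 * (1 + |B|) * (κ / t) ^ R) atTop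
      (nhds (C / 2 * (1 + |B|) * 0)) :=
    (tendsto_pow_atTop_nhds_zero_of_lt_one (by positivity)
      ((div_lt_one ht0).2 hκt)).const_mul _
  rw [mul_zero] at h1
  obtain ⟨R, hR⟩ := (h1.eventually (gt_mem_nhds (show (0 : ℝ) < ε / 8 by positivity))).exists
  have h2 := F1_tendsto C₀ (Nat.card k) (dl0 g + dl1 g w) (Nat.cast_nonneg _) hδp.le hq R
  have h3 := F2_tendsto |C₁| t (dl0 g + dl1 g w) R ht0 ht1 hδp (abs_nonneg _)
  have h4 := h2.eventually (gt_mem_nhds (show (0 : ℝ) < ε / 8 by positivity))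
  have h5 := h3.eventually (gt_mem_nhds (show (0 : ℝ) < ε / 8 by positivity))
  have h6 := (h4.and h5).and (sqrt_tendsto.eventually_ge_atTop 2)
  rw [eventually_atTop] at h6
  obtain ⟨N₀, hN₀⟩ := h6
  refine ⟨N₀, fun n hn => ?_⟩
  obtain ⟨⟨h7, h8⟩, h9⟩ := hN₀ n hn
  refine (itrJ_main hF w nrs hC₀ hB hC hκ hκ1 hmc hC₁ hφ (fun d => lw_le hMC fun _ => hφ _)
    hκt ht1 R n h9).trans ?_
  have hq0 : (0 : ℝ) < (Nat.card k : ℝ) ^ n := by
    have : (0 : ℝ) < Nat.card k := by linarith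
    positivity
  have h10 : C / 2 * (1 + |B|) * (κ / t) ^ R +
        C₀ * (1 + n) / √((Nat.card k : ℝ) ^ (Nat.sqrt n)) *
          (R * (1 + lamN (dl0 g + dl1 g w) n) ^ R) +
        |C₁| * (t⁻¹) ^ (R + ⌈t * lamN (dl0 g + dl1 g w) n⌉₊) *
          (((Nat.sqrt n : ℕ) : ℝ) / n) ^ ((1 - t) * (dl0 g + dl1 g w)) ≤ ε / 2 := by
    linarith
  have h11 := mul_le_mul_of_nonneg_left h10 (by positivity : 0 ≤ 2 * (Nat.card k : ℝ) ^ n)
  refine h11.trans (le_of_eq ?_)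
  ring

end Run7.h303.JP
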